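import Mathlib
import Pool.Agent.H93.GT.Final

set_option autoImplicit false

/-!
# The height inequality for hypersurface sections, with a term along a closed subscheme

`K` is a number field and `X` an integral closed subscheme of a projective space over `K`, of
dimension `ρ + τ`, the common zeros of the forms `G`. The divisors `D i` are the sections of `X`
by the hypersurfaces `F i = 0` of degree `d i`, in general position: no `ρ + τ + 1` of them have
a common point on `X`. `Y` is the closed subscheme of `X` cut out by the forms `H j` of degree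
`h j`, of codimension at least `ρ`.
-/

namespace Pool.Agent.Results.MP_17a322_nt.GcdTerm

open MvPolynomial Finset Height NumberField
open Pool.Agent.W180.OP (Pl av wt nrm lam)

/-- the local height `log⁺ (1 / max_j (|H_j(x)| / |x| ^ h_j))` of a point with respect to the
common zeros of the forms `H j` of degree `h j`; here `|x|` is the maximum of the absolute values
of the coordinates -/
noncomputable def lamY {K : Type} [Field K] (f : AbsoluteValue K ℝ) {n l : ℕ} (h : Fin l → ℕ)
    (H : Fin l → MvPolynomial (Fin n) K) (x : Fin n → K) : ℝ :=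
  max 0 (- Real.log (⨆ j, f (eval x (H j)) / nrm f x ^ h j))

/-- the sum of the local heights with respect to the common zeros of the forms `H j` over the
places in the set `A`, the place `v` counted with the weight `wt v` -/
noncomputable def heightY {K : Type} [Field K] [NumberField K] (A : Set (Pl K)) {n l : ℕ}
    (h : Fin l → ℕ) (H : Fin l → MvPolynomial (Fin n) K) (x : Fin n → K) : ℝ :=
  ∑ᶠ (v : Pl K) (_ : v ∈ A), wt v * lamY (av v) h H x

/-- the proximity function of the hypersurface `F = 0` of degree `d`: the sum over the places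
of `S` of `log (|x| ^ d / |F(x)|)`, the place `v` counted with the weight `wt v` -/
noncomputable def prox {K : Type} [Field K] [NumberField K] (S : Finset (Pl K)) {n : ℕ} (d : ℕ)
    (F : MvPolynomial (Fin n) K) (x : Fin n → K) : ℝ :=
  ∑ v ∈ S, wt v * lam (av v) d F x

/-- the polynomials of the set have no common zero except the origin, over any field
containing `K` -/
def NoZero {K : Type} [Field K] {n : ℕ} (P : Set (MvPolynomial (Fin n) K)) : Prop :=
  ∀ (L : Type) [Field L] [Algebra K L] (x : Fin n → L), (∀ Q ∈ P, aeval x Q = 0) → x = 0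

theorem result {K : Type} [Field K] [NumberField K] {n m q l ρ τ : ℕ} (hρ : 2 ≤ ρ)
    -- the integral scheme `X` of dimension `ρ + τ`
    (G : Fin m → MvPolynomial (Fin n) K) (g : Fin m → ℕ) (hG : ∀ k, (G k).IsHomogeneous (g k))
    (hprime : (Ideal.span (Set.range G)).IsPrime)
    (htr : Algebra.trdeg K (MvPolynomial (Fin n) K ⧸ Ideal.span (Set.range G)) =
      ((ρ + τ + 1 : ℕ) : Cardinal))
    -- the divisors, in general position
    (F : Fin q → MvPolynomial (Fin n) K) (d : Fin q → ℕ) (hd : ∀ i, 1 ≤ d i)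
    (hF : ∀ i, (F i).IsHomogeneous (d i)) (hq : ρ + τ + 1 ≤ q)
    (hgp : ∀ e : Fin (ρ + τ + 1) ↪ Fin q, NoZero (Set.range G ∪ Set.range (F ∘ e)))
    -- the closed subscheme `Y`, of dimension at most `τ`
    (H : Fin l → MvPolynomial (Fin n) K) (h : Fin l → ℕ) (hh : ∀ j, 1 ≤ h j)
    (hH : ∀ j, (H j).IsHomogeneous (h j))
    (hY : ∃ P : Fin (τ + 1) → MvPolynomial (Fin n) K,
      (∀ j, ∃ e, 1 ≤ e ∧ (P j).IsHomogeneous e) ∧
      NoZero (Set.range G ∪ Set.range H ∪ Set.range P)) :
    ∃ c : ℝ, 0 < c ∧ ∀ (S : Finset (Pl K)) (ε : ℝ), 0 < ε →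
      ∃ (Z : MvPolynomial (Fin n) K) (C : ℝ), Z ∉ Ideal.span (Set.range G) ∧
        (∃ t, Z.IsHomogeneous t) ∧
        ∀ x : Fin n → K, x ≠ 0 → (∀ k, eval x (G k) = 0) → (∀ i, eval x (F i) ≠ 0) →
          eval x Z ≠ 0 → ∀ Δ : ℝ,
          Δ = (ρ + τ + 1 + ε) * logHeight x + C - ∑ i, prox S (d i) (F i) x / d i →
          0 ≤ Δ ∧ ∀ A : Set (Pl K),
            ((∀ v ∈ A, v ∉ S) ∨ ∀ e : Fin (ρ + τ) ↪ Fin q,
              NoZero (Set.range G ∪ Set.range (F ∘ e) ∪ Set.range H)) →
            c * heightY A h H x ^ ρ ≤ (1 + logHeight x) * Δ ^ (ρ - 1) := by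
  obtain ⟨p, rfl⟩ : ∃ p, ρ = p + 1 := ⟨ρ - 1, by omega⟩
  have hp : 1 ≤ p := by omega
  obtain ⟨P, hP, hPY⟩ := hY
  obtain ⟨c, hc, hmain⟩ := Pool.Agent.H93.GT.final (τ := τ) hp hq G g hG hprime htr F d hd hF
    (fun e L _ _ x hx1 hx2 => hgp e L x (by
      rintro Q (⟨k, rfl⟩ | ⟨k, rfl⟩)
      · exact hx1 k
      · exact hx2 k)) h hh H hH
    ⟨P, hP, fun L _ _ x hx1 hx2 hx3 => hPY L x (by
      rintro Q ((⟨k, rfl⟩ | ⟨k, rfl⟩) | ⟨k, rfl⟩)
      · exact hx1 k
      · exact hx2 k
      · exact hx3 k)⟩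
  refine ⟨c, hc, fun S ε hε => ?_⟩
  obtain ⟨Z, hZ, hZt, C, hC⟩ := hmain S ε hε
  refine ⟨Z, C, hZ, hZt, fun x hx hGx hFx hZx Δ hΔ => ?_⟩
  have e0 : ∀ Q : MvPolynomial (Fin n) K, eval x Q = aeval x Q := fun Q =>
    Pool.Agent.H93.GT.eval_eq_aeval x Q
  have e1 : ∀ f : AbsoluteValue K ℝ, lamY f h H x =
      max 0 (- Real.log (Pool.Agent.H93.GT.mu f h H x)) := by
    intro f
    unfold lamY Pool.Agent.H93.GT.mu Pool.Agent.W180.TP.rho
    simp only [e0]
  have e2 : ∑ i, prox S (d i) (F i) x / d i =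
      ∑ v ∈ S, wt v * ∑ i, lam (av v) (d i) (F i) x / d i := by
    unfold prox
    simp only [Finset.sum_div, Finset.mul_sum]
    rw [Finset.sum_comm]
    exact Finset.sum_congr rfl fun v _ => Finset.sum_congr rfl fun i _ => by ring
  obtain ⟨h1, h2⟩ := hC x hx (fun k => by rw [← e0]; exact hGx k)
    (fun i => by rw [← e0]; exact hFx i) (by rw [← e0]; exact hZx) Δ (by
      rw [hΔ, e2]
      push_cast
      ring)
  refine ⟨h1, fun A hA => ?_⟩
  have h3 := h2 A (by
    rcases hA with hA | hA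
    · exact Or.inl hA
    · refine Or.inr fun e L _ _ y hy1 hy2 hy3 => hA e L y ?_
      rintro Q ((⟨k, rfl⟩ | ⟨k, rfl⟩) | ⟨k, rfl⟩)
      · exact hy1 k
      · exact hy2 k
      · exact hy3 k)
  unfold heightY
  simp only [e1]
  rw [Nat.add_sub_cancel]
  exact h3

end Pool.Agent.Results.MP_17a322_nt.GcdTerm
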